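import Pool.Agent.W_MP_3a69bf_ag.Main

set_option autoImplicit false

namespace Pool.Agent.Results.MP_3a69bf_ag.LargeSeparatorsNotToric

open Pool.Agent.W_MP_3a69bf_ag

/-- If `G` is a DAG containing two vertices `i, j` for which the minimal size of a d-separating
set is at least `2`, then the vanishing ideal of the Gaussian DAG model of `G` is not toric. -/
theorem result {n : ℕ} (E : Fin n → Fin n → Prop) (hE : IsDAG E) (i j : Fin n)
    (hex : ∃ C : Finset (Fin n), DSep E i j C)
    (hmin : ∀ C : Finset (Fin n), DSep E i j C → 2 ≤ C.card) :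
    ¬ IsToric (gaussianIdeal E) := by
  rintro ⟨_, B, hB, hI⟩
  obtain ⟨C₀, hC₀⟩ := hex
  have hne : i ≠ j := by
    rintro rfl
    obtain ⟨k, hk, _⟩ := hC₀.2.2 (fun _ => i) 0
      ⟨fun k hk => absurd hk (Nat.not_lt_zero _), fun k hk l hl _ => by omega⟩ rfl rfl
    omega
  have hadj : ¬ (E i j ∨ E j i) := by
    intro h
    obtain ⟨k, hk, _⟩ := hC₀.2.2 (fun k => if k = 0 then i else j) 1
      ⟨fun k hk => by
        have hk0 : k = 0 := by omega
        subst hk0
        simpa using h, fun k hk l hl hkl => by
        simp only at hkl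
        split_ifs at hkl with h1 h2 h2
        · omega
        · exact absurd hkl hne
        · exact absurd hkl.symm hne
        · omega⟩ (by simp) (by simp)
    omega
  rw [not_or] at hadj
  obtain ⟨C, hC1, hC2⟩ := exists_small_dsep hE i j hne hadj.1 hadj.2 B hB hI
  have := hmin C hC2
  omega

end Pool.Agent.Results.MP_3a69bf_ag.LargeSeparatorsNotToric
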